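import Pool.Agent.Lib.MP_4332cb_co.Menger

namespace Pool.Agent.Lib.MP_09e206_co

open Pool.Agent.Lib.MP_4332cb_co Finset

open Classical in
/-- degree inside a set of vertices -/
noncomputable def dg {V : Type*} (G : SimpleGraph V) (S : Finset V) (v : V) : ℕ :=
  (S.filter (fun w => G.Adj v w)).card

/-- robust connectivity: after the deletion of at most `|U|/40` vertices any two vertices lie in a
connected set of at most 100 vertices -/
def Rob {U : Type*} [Fintype U] (H : SimpleGraph U) : Prop :=
  ∀ D : Finset U, 40 * D.card ≤ Fintype.card U → ∀ u w, u ∉ D → w ∉ D →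
    ∃ C : Finset U, C.card ≤ 100 ∧ u ∈ C ∧ w ∈ C ∧ Disjoint C D ∧ Cn H (C : Set U)

end Pool.Agent.Lib.MP_09e206_co
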