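import Pool.Agent.Lib.MP_09e206_co.K.Defs

namespace Pool.Agent.Lib.MP_09e206_co

open Pool.Agent.Lib.MP_4332cb_co Finset

open Classical in
private theorem Q1_greedy {W : Type*} [Fintype W] {G : SimpleGraph W} {k : ℕ} (hk : 0 < k)
    (h : ∀ S : Finset W, S.Nonempty → ∃ v ∈ S, dg G S v < k) (n : ℕ) :
    ∀ S : Finset W, S.card = n → ∃ c : W → Fin k, ∀ u ∈ S, ∀ v ∈ S, G.Adj u v → c u ≠ c v := by
  induction n with
  | zero =>
    intro S hS
    refine ⟨fun _ => ⟨0, hk⟩, fun u hu => ?_⟩
    rw [Finset.card_eq_zero.1 hS] at hu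
    exact absurd hu (Finset.notMem_empty u)
  | succ n ih =>
    intro S hS
    obtain ⟨v, hv, hd⟩ := h S (Finset.card_pos.1 (by omega))
    obtain ⟨c, hc⟩ := ih (S.erase v) (by rw [Finset.card_erase_of_mem hv]; omega)
    obtain ⟨x, hx⟩ : ∃ x : Fin k, x ∉ (S.filter (fun w => G.Adj v w)).image c := by
      by_contra hcon
      push Not at hcon
      have h1 : (Finset.univ : Finset (Fin k)) ⊆ (S.filter (fun w => G.Adj v w)).image c :=
        fun x _ => hcon x
      have h2 := Finset.card_le_card h1
      rw [Finset.card_univ, Fintype.card_fin] at h2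
      have h3 : (S.filter (fun w => G.Adj v w)).card < k := hd
      have h4 := Finset.card_image_le (s := S.filter (fun w => G.Adj v w)) (f := c)
      omega
    refine ⟨Function.update c v x, ?_⟩
    have hvn : ∀ w ∈ S, G.Adj v w → x ≠ c w := by
      intro w hw hadj heq
      exact hx (Finset.mem_image.2 ⟨w, Finset.mem_filter.2 ⟨hw, hadj⟩, heq.symm⟩)
    intro u hu w hw hadj
    by_cases huv : u = v
    · subst huv
      have hwu : w ≠ u := hadj.ne'
      rw [Function.update_self, Function.update_of_ne hwu]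
      exact hvn w hw hadj
    · by_cases hwv : w = v
      · subst hwv
        rw [Function.update_self, Function.update_of_ne huv]
        exact (hvn u hu hadj.symm).symm
      · rw [Function.update_of_ne huv, Function.update_of_ne hwv]
        exact hc u (Finset.mem_erase.2 ⟨huv, hu⟩) w (Finset.mem_erase.2 ⟨hwv, hw⟩) hadj

/-- [Q1] -/
theorem exists_dense {W : Type*} [Fintype W] {G : SimpleGraph W} {k : ℕ} (h : ¬ G.Colorable k) :
    ∃ S : Finset W, S.Nonempty ∧ ∀ v ∈ S, k ≤ dg G S v := by
  classical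
  by_contra hcon
  push Not at hcon
  apply h
  rcases isEmpty_or_nonempty W with hW | hW
  · exact ⟨SimpleGraph.Coloring.mk (fun v => (hW.false v).elim) (fun {v} => (hW.false v).elim)⟩
  · have hk : 0 < k := by
      obtain ⟨v, -, hv⟩ := hcon Finset.univ Finset.univ_nonempty
      omega
    obtain ⟨c, hc⟩ := Q1_greedy hk hcon _ Finset.univ rfl
    exact ⟨SimpleGraph.Coloring.mk c fun {u v} huv =>
      hc u (Finset.mem_univ u) v (Finset.mem_univ v) huv⟩

end Pool.Agent.Lib.MP_09e206_co
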