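import Pool.Agent.Lib.MP_09e206_co.K.Defs
import Pool.Agent.Lib.MP_4332cb_co.Dens

namespace Pool.Agent.Lib.MP_09e206_co

open Pool.Agent.Lib.MP_4332cb_co Finset

/-- the pairs are counted by the degrees -/
private lemma Q2_PA {V : Type} [Fintype V] (H : SimpleGraph V) :
    (PA H).card = ∑ v, dg H univ v := by
  classical
  unfold PA dg
  rw [Finset.card_filter, Fintype.sum_prod_type]
  refine Finset.sum_congr rfl fun a _ => ?_
  rw [Finset.card_filter]

open Classical in
/-- the final step: all edges have many common neighbours, the number of edges is small -/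
private lemma Q2_fin {V : Type} [Fintype V] (H : SimpleGraph V) {d n : ℕ} (hd : 1 ≤ d)
    (hV : Fintype.card V = n) (hn : 0 < n) (hlow : 2 * d * n ≤ (PA H).card)
    (hhigh : (PA H).card < 2 * d * n + 2) (hiso : ∀ v, ∃ w, H.Adj v w)
    (hcom : ∀ x y, H.Adj x y → d ≤ (univ.filter (fun z => H.Adj x z ∧ H.Adj y z)).card) :
    ∃ (U : Type) (_ : Fintype U) (J : SimpleGraph U), Mn J H ∧ 0 < Fintype.card U ∧
      Fintype.card U ≤ 2 * d ∧ ∀ v, d ≤ dg J univ v := by
  -- `n ≥ 2`
  have hn2 : 2 ≤ n := by
    have hne : (PA H).Nonempty := by
      rw [← Finset.card_pos]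
      have : 0 < 2 * d * n := by positivity
      omega
    obtain ⟨⟨x, y⟩, hxy⟩ := hne
    rw [mem_PA] at hxy
    have h1 : x ≠ y := hxy.ne
    have h2 : ({x, y} : Finset V).card ≤ Fintype.card V := Finset.card_le_univ _
    rw [Finset.card_pair h1, hV] at h2
    exact h2
  -- a vertex of small degree
  obtain ⟨v, hv⟩ : ∃ v, dg H univ v ≤ 2 * d := by
    by_contra hcon
    push Not at hcon
    have h1 : ∑ _v : V, (2 * d + 1) ≤ ∑ v, dg H univ v :=
      Finset.sum_le_sum fun v _ => hcon v
    rw [Finset.sum_const, Finset.card_univ, hV, smul_eq_mul, ← Q2_PA] at h1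
    have h2 : n * (2 * d + 1) = 2 * d * n + n := by ring
    omega
  have hcU : Fintype.card {z // H.Adj v z} = dg H univ v := by
    unfold dg
    rw [Fintype.card_subtype]
  refine ⟨{z // H.Adj v z}, inferInstance, H.comap Subtype.val, ?_, ?_, ?_, ?_⟩
  · exact Mn_of_embedding (fun z : {z // H.Adj v z} => z.1) Subtype.val_injective
      (fun _ _ h => h)
  · obtain ⟨w, hw⟩ := hiso v
    exact Fintype.card_pos_iff.2 ⟨⟨w, hw⟩⟩
  · rw [hcU]
    exact hv
  · intro a
    have h1 := hcom v a.1 a.2
    refine h1.trans ?_
    unfold dg
    rw [← Finset.card_map (Function.Embedding.subtype _)]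
    apply Finset.card_le_card
    intro z hz
    rw [Finset.mem_filter] at hz
    rw [Finset.mem_map]
    exact ⟨⟨z, hz.2.1⟩, by
      rw [Finset.mem_filter]
      exact ⟨mem_univ _, hz.2.2⟩, rfl⟩

private lemma Q2_aux {W : Type} (G : SimpleGraph W) {d : ℕ} (hd : 1 ≤ d) :
    ∀ (n k : ℕ) (V : Type) [Fintype V] (H : SimpleGraph V), Fintype.card V = n → 0 < n →
      (PA H).card = k → Mn H G → 2 * d * n ≤ k →
      ∃ (U : Type) (_ : Fintype U) (J : SimpleGraph U), Mn J G ∧ 0 < Fintype.card U ∧
        Fintype.card U ≤ 2 * d ∧ ∀ v, d ≤ dg J univ v := by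
  classical
  intro n
  induction n with
  | zero => exact fun _ _ _ _ _ h => absurd h (lt_irrefl _)
  | succ n ihn =>
    intro k
    induction k using Nat.strong_induction_on with
    | _ k ihk =>
      intro V _ H hV _ hk hM hle
      have hPne : (PA H).Nonempty := by
        rw [← Finset.card_pos, hk]
        have : 0 < 2 * d * (n + 1) := by positivity
        omega
      have hmul : 2 * d * (n + 1) = 2 * d * n + 2 * d := by ring
      -- contraction
      by_cases hex : ∃ x y, H.Adj x y ∧
          (univ.filter (fun z => H.Adj x z ∧ H.Adj y z)).card + 1 ≤ d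
      · obtain ⟨x, y, hxy, hc⟩ := hex
        have h1 := contr_pairs hxy d hc
        have hcard : Fintype.card {v : V // v ≠ y} = n := by
          rw [Fintype.card_subtype_compl, Fintype.card_subtype_eq, hV]; rfl
        have hn : 0 < n := by
          rw [← hcard, Fintype.card_pos_iff]
          exact ⟨⟨x, hxy.ne⟩⟩
        refine ihn _ {v : V // v ≠ y} (contr H x y) hcard hn rfl ((Mn_contr hxy).trans hM) ?_
        omega
      · push Not at hex
        -- isolated vertices
        by_cases hiso : ∃ v, ∀ w, ¬ H.Adj v w
        · obtain ⟨v, hv⟩ := hiso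
          obtain ⟨⟨x, y⟩, hxy⟩ := hPne
          rw [mem_PA] at hxy
          have hxv : x ≠ v := by
            rintro rfl
            exact hv y hxy
          have hcard : Fintype.card {u : V // u ≠ v} = n := by
            rw [Fintype.card_subtype_compl, Fintype.card_subtype_eq, hV]; rfl
          have hn : 0 < n := by
            rw [← hcard, Fintype.card_pos_iff]
            exact ⟨⟨x, hxv⟩⟩
          refine ihn _ {u : V // u ≠ v} (H.comap Subtype.val) hcard hn rfl
            ((Mn_of_embedding (fun z : {u : V // u ≠ v} => z.1) Subtype.val_injective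
              (fun _ _ h => h)).trans hM) ?_
          have h2 : (PA H).card ≤ (PA (H.comap (Subtype.val : {u : V // u ≠ v} → V))).card := by
            rw [← Finset.card_map (Function.Embedding.prodMap
              (Function.Embedding.subtype (fun u : V => u ≠ v))
              (Function.Embedding.subtype (fun u : V => u ≠ v)))]
            apply Finset.card_le_card
            rintro ⟨a, b⟩ hab
            rw [mem_PA] at hab
            rw [Finset.mem_map]
            have ha : a ≠ v := by
              rintro rfl
              exact hv b hab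
            have hb : b ≠ v := by
              rintro rfl
              exact hv a hab.symm
            refine ⟨(⟨a, ha⟩, ⟨b, hb⟩), ?_, rfl⟩
            rw [mem_PA]
            exact hab
          omega
        · push Not at hiso
          -- too many edges
          by_cases hmany : 2 * d * (n + 1) + 2 ≤ k
          · obtain ⟨⟨x, y⟩, hxy⟩ := hPne
            rw [mem_PA] at hxy
            have hsub : H.deleteEdges {s(x, y)} ≤ H := SimpleGraph.deleteEdges_le _
            have h1 : (PA H).card ≤ (PA (H.deleteEdges {s(x, y)})).card + 2 := by
              have h2 : PA H ⊆ PA (H.deleteEdges {s(x, y)}) ∪ {(x, y), (y, x)} := by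
                rintro ⟨a, b⟩ hab
                rw [mem_PA] at hab
                rw [Finset.mem_union, mem_PA]
                by_cases h3 : s(a, b) = s(x, y)
                · right
                  rw [Sym2.eq_iff] at h3
                  rw [Finset.mem_insert, Finset.mem_singleton]
                  rcases h3 with ⟨h3, h4⟩ | ⟨h3, h4⟩
                  · left
                    rw [h3, h4]
                  · right
                    rw [h3, h4]
                · left
                  show (H.deleteEdges {s(x, y)}).Adj a b
                  rw [SimpleGraph.deleteEdges_adj]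
                  exact ⟨hab, h3⟩
              refine (Finset.card_le_card h2).trans ((Finset.card_union_le _ _).trans ?_)
              exact Nat.add_le_add_left Finset.card_le_two _
            have h3 : (PA (H.deleteEdges {s(x, y)})).card < (PA H).card := by
              apply Finset.card_lt_card
              rw [Finset.ssubset_iff_of_subset]
              · refine ⟨(x, y), ?_, ?_⟩
                · rw [mem_PA]
                  exact hxy
                · rw [mem_PA]
                  show ¬ (H.deleteEdges {s(x, y)}).Adj x y
                  rw [SimpleGraph.deleteEdges_adj]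
                  exact fun h => h.2 rfl
              · intro p hp
                rw [mem_PA] at hp ⊢
                exact hsub hp
            exact ihk _ (by omega) V (H.deleteEdges {s(x, y)}) hV (Nat.succ_pos n) rfl
              ((Mn_of_le hsub).trans hM) (by omega)
          · -- the final step
            obtain ⟨U, hU, J, h1, h2⟩ := Q2_fin H (d := d) hd hV (Nat.succ_pos n)
              (by omega) (by omega) hiso (fun x y hxy => by
                have h3 := hex x y hxy
                convert Nat.le_of_lt_succ h3)
            exact ⟨U, hU, J, h1.trans hM, h2⟩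

/-- [Q2] Mader -/
theorem mader {W : Type} [Fintype W] {G : SimpleGraph W} {d : ℕ} (hd : 1 ≤ d) {S : Finset W}
    (hS : S.Nonempty) (h : ∀ v ∈ S, 2 * d ≤ dg G S v) :
    ∃ (U : Type) (_ : Fintype U) (H : SimpleGraph U), Mn H G ∧ 0 < Fintype.card U ∧
      Fintype.card U ≤ 2 * d ∧ ∀ v, d ≤ dg H univ v := by
  classical
  refine Q2_aux G hd S.card _ {x // x ∈ S} (G.comap Subtype.val) (Fintype.card_coe S)
    (Finset.card_pos.2 hS) rfl
    (Mn_of_embedding (fun z : {x // x ∈ S} => z.1) Subtype.val_injective (fun _ _ h => h)) ?_
  rw [Q2_PA]
  have h1 : ∀ v : {x // x ∈ S}, 2 * d ≤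
      dg (G.comap (Subtype.val : {x // x ∈ S} → W)) univ v := by
    intro v
    refine (h v.1 v.2).trans ?_
    unfold dg
    rw [← Finset.card_map (Function.Embedding.subtype _)]
    apply Finset.card_le_card
    intro z hz
    rw [Finset.mem_filter] at hz
    rw [Finset.mem_map]
    exact ⟨⟨z, hz.1⟩, by
      rw [Finset.mem_filter]
      exact ⟨mem_univ _, hz.2⟩, rfl⟩
  calc 2 * d * S.card = ∑ _v : {x // x ∈ S}, 2 * d := by
        rw [Finset.sum_const, Finset.card_univ, Fintype.card_coe, smul_eq_mul, mul_comm]
    _ ≤ _ := Finset.sum_le_sum fun v _ => h1 v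

end Pool.Agent.Lib.MP_09e206_co
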