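import Pool.Agent.Lib.MP_09e206_co.K.Defs

namespace Pool.Agent.Lib.MP_09e206_co

open Pool.Agent.Lib.MP_4332cb_co Finset

open Classical in
/-- balls around `u` outside `D` -/
private noncomputable def Q3a_ball {U : Type*} [Fintype U] (H : SimpleGraph U) (D : Finset U)
    (u : U) : ℕ → Finset U
  | 0 => {u}
  | i + 1 => Q3a_ball H D u i ∪
      Finset.univ.filter (fun x => x ∉ D ∧ ∃ y ∈ Q3a_ball H D u i, H.Adj y x)

private theorem Q3a_sub {U : Type*} [Fintype U] (H : SimpleGraph U) (D : Finset U)
    (u : U) (i : ℕ) : Q3a_ball H D u i ⊆ Q3a_ball H D u (i + 1) := by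
  classical
  rw [Q3a_ball]
  exact Finset.subset_union_left

private theorem Q3a_center {U : Type*} [Fintype U] (H : SimpleGraph U) (D : Finset U)
    (u : U) (i : ℕ) : u ∈ Q3a_ball H D u i := by
  induction i with
  | zero => simp [Q3a_ball]
  | succ i ih => exact Q3a_sub H D u i ih

private theorem Q3a_path {U : Type*} [Fintype U] (H : SimpleGraph U) (D : Finset U)
    {u : U} (hu : u ∉ D) (i : ℕ) : ∀ x ∈ Q3a_ball H D u i, ∃ C : Finset U, C.card ≤ i + 1 ∧
      u ∈ C ∧ x ∈ C ∧ Disjoint C D ∧ Cn H (C : Set U) := by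
  classical
  induction i with
  | zero =>
    intro x hx
    rw [Q3a_ball, Finset.mem_singleton] at hx
    rw [hx]
    refine ⟨{u}, by simp, by simp, by simp, by simpa using hu, ?_⟩
    rw [Finset.coe_singleton]
    exact Cn_singleton H u
  | succ i ih =>
    intro x hx
    rw [Q3a_ball, Finset.mem_union, Finset.mem_filter] at hx
    rcases hx with hx | ⟨-, hxD, y, hy, hyx⟩
    · obtain ⟨C, h1, h2, h3, h4, h5⟩ := ih x hx
      exact ⟨C, by omega, h2, h3, h4, h5⟩
    · obtain ⟨C, h1, h2, h3, h4, h5⟩ := ih y hy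
      refine ⟨insert x C, (Finset.card_insert_le _ _).trans (by omega), by simp [h2], by simp, ?_,
        ?_⟩
      · rw [Finset.disjoint_insert_left]
        exact ⟨hxD, h4⟩
      · have h6 := h5.union_of_adj (Cn_singleton H x) (x := y) (y := x) h3 rfl hyx
        rw [Finset.coe_insert, Set.insert_eq, Set.union_comm]
        exact h6

/-- [Q3a] highly connected case -/
theorem rob_of_conn {U : Type*} [Fintype U] {H : SimpleGraph U} 
    (h : ∀ D : Finset U, 20 * D.card < Fintype.card U → ∀ u w, u ∉ D → w ∉ D →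
      RI H ((D : Set U)ᶜ) u w) : Rob H := by
  classical
  intro D hD u w hu hw
  by_cases hw41 : w ∈ Q3a_ball H D u 41
  · obtain ⟨C, h1, h2, h3, h4, h5⟩ := Q3a_path H D hu 41 w hw41
    exact ⟨C, by omega, h2, h3, h4, h5⟩
  exfalso
  have hmono : ∀ i j, i ≤ j → Q3a_ball H D u i ⊆ Q3a_ball H D u j := by
    intro i j hij
    induction hij with
    | refl => exact Finset.Subset.refl _
    | step _ ih => exact ih.trans (Q3a_sub H D u _)
  have hstep : ∀ i < 41, 40 * (Q3a_ball H D u i).card + Fintype.card U ≤
      40 * (Q3a_ball H D u (i + 1)).card := by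
    intro i hi
    have hwi : w ∉ Q3a_ball H D u (i + 1) := fun hc => hw41 (hmono _ _ (by omega) hc)
    set L := Q3a_ball H D u (i + 1) \ Q3a_ball H D u i with hL
    have hcard : (Q3a_ball H D u (i + 1)).card = L.card + (Q3a_ball H D u i).card := by
      rw [hL, Finset.card_sdiff_add_card_eq_card (Q3a_sub H D u i)]
    have hbig : Fintype.card U ≤ 20 * (D ∪ L).card := by
      by_contra hc
      rw [not_le] at hc
      have huL : u ∉ D ∪ L := by
        rw [Finset.mem_union, not_or, hL, Finset.mem_sdiff]
        exact ⟨hu, fun hc => hc.2 (Q3a_center H D u i)⟩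
      have hwL : w ∉ D ∪ L := by
        rw [Finset.mem_union, not_or, hL, Finset.mem_sdiff]
        exact ⟨hw, fun hc => hwi hc.1⟩
      have h1 := h (D ∪ L) hc u w huL hwL
      have h2 : ∀ z, RI H (((D ∪ L : Finset U) : Set U)ᶜ) u z → z ∈ Q3a_ball H D u i := by
        intro z hz
        induction hz with
        | refl => exact Q3a_center H D u i
        | @tail b c _ hbc ih =>
          have hcn : c ∉ D ∪ L := hbc.2.2
          rw [Finset.mem_union, not_or] at hcn
          have hcB : c ∈ Q3a_ball H D u (i + 1) := by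
            rw [Q3a_ball, Finset.mem_union, Finset.mem_filter]
            exact Or.inr ⟨Finset.mem_univ _, hcn.1, b, ih, hbc.1⟩
          by_contra hcc
          exact hcn.2 (by rw [hL, Finset.mem_sdiff]; exact ⟨hcB, hcc⟩)
      exact hwi (Q3a_sub H D u i (h2 w h1))
    have h3 := Finset.card_union_le D L
    omega
  have hall : ∀ i ≤ 41, i * Fintype.card U + 40 ≤ 40 * (Q3a_ball H D u i).card := by
    intro i
    induction i with
    | zero =>
      intro _
      simp [Q3a_ball]
    | succ i ih =>
      intro hi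
      have h1 := ih (by omega)
      have h2 := hstep i (by omega)
      rw [Nat.succ_mul]
      omega
  have h4 := hall 41 le_rfl
  have h5 := Finset.card_le_univ (Q3a_ball H D u 41)
  omega

end Pool.Agent.Lib.MP_09e206_co
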