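import Pool.Agent.Lib.MP_09e206_co.K.Defs
import Pool.Agent.Lib.MP_09e206_co.K.Q3a

namespace Pool.Agent.Lib.MP_09e206_co

open Pool.Agent.Lib.MP_4332cb_co Finset

/-- very dense graphs are robust -/
theorem rob_of_dense {W : Type*} [Fintype W] {H : SimpleGraph W}
    (h : ∀ v, 9 * Fintype.card W < 10 * dg H univ v) : Rob H := by
  classical
  intro D hD u w hu hw
  -- common neighbours
  set A : Finset W := (univ : Finset W).filter (fun x => H.Adj u x) with hA
  set B : Finset W := (univ : Finset W).filter (fun x => H.Adj w x) with hB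
  have hAc : A.card = dg H univ u := by
    unfold dg; rw [hA]
  have hBc : B.card = dg H univ w := by
    unfold dg; rw [hB]
  have hun : (A ∪ B).card ≤ Fintype.card W := card_le_univ _
  have hadd := card_union_add_card_inter A B
  have hu1 := h u
  have hw1 := h w
  have hlt : D.card < (A ∩ B).card := by omega
  obtain ⟨x, hx, hxD⟩ := exists_mem_notMem_of_card_lt_card hlt
  have hxA : H.Adj u x := by
    have := (mem_inter.1 hx).1
    rw [hA, mem_filter] at this
    exact this.2
  have hxB : H.Adj w x := by
    have := (mem_inter.1 hx).2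
    rw [hB, mem_filter] at this
    exact this.2
  refine ⟨{x, u, w}, ?_, ?_, ?_, ?_, ?_⟩
  · refine (card_le_three).trans (by norm_num)
  · simp
  · simp
  · rw [Finset.disjoint_left]
    intro y hy
    simp only [mem_insert, mem_singleton] at hy
    rcases hy with rfl | rfl | rfl
    · exact hxD
    · exact hu
    · exact hw
  · refine Cn_of_center (x := x) (by simp) ?_
    intro y hy
    simp only [coe_insert, coe_singleton, Set.mem_insert_iff, Set.mem_singleton_iff] at hy
    rcases hy with rfl | rfl | rfl
    · exact RI.refl _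
    · exact RI.single hxA.symm (by simp) (by simp)
    · exact RI.single hxB.symm (by simp) (by simp)

/-- the piece -/
theorem exists_rob_aux {U : Type} [Fintype U] {H : SimpleGraph U}
    (hdeg : ∀ v, Fintype.card U ≤ 2 * dg H univ v) (D : Finset U)
    (hD : 20 * D.card < Fintype.card U) (P : Finset U) (hPne : P.Nonempty)
    (hP : ∀ v ∈ P, ∀ w, H.Adj v w → w ∉ D → w ∈ P) (hP2 : 2 * P.card ≤ Fintype.card U) :
    ∃ (U' : Type) (_ : Fintype U') (H' : SimpleGraph U'), Mn H' H ∧ 0 < Fintype.card U' ∧
      9 * Fintype.card U ≤ 20 * Fintype.card U' ∧ (∀ v, Fintype.card U' ≤ 2 * dg H' univ v) ∧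
      Rob H' := by
  classical
  have key : ∀ v : {v // v ∈ P}, 9 * Fintype.card U <
      20 * dg (H.comap (fun x : {v // v ∈ P} => (x : U))) univ v := by
    intro v
    have h1 : dg H univ v.1 ≤ dg (H.comap (fun x : {v // v ∈ P} => (x : U))) univ v + D.card := by
      unfold dg
      have h2 : (univ.filter (fun w => H.Adj v.1 w)) ⊆
          ((univ.filter (fun w : {v // v ∈ P} =>
            (H.comap (fun x : {v // v ∈ P} => (x : U))).Adj v w)).image Subtype.val) ∪ D := by
        intro w hw
        rw [mem_filter] at hw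
        by_cases hwD : w ∈ D
        · exact mem_union_right _ hwD
        · refine mem_union_left _ ?_
          rw [mem_image]
          exact ⟨⟨w, hP v.1 v.2 w hw.2 hwD⟩, by rw [mem_filter]; exact ⟨mem_univ _, hw.2⟩, rfl⟩
      refine (card_le_card h2).trans ?_
      refine (card_union_le _ _).trans ?_
      exact Nat.add_le_add_right card_image_le _
    have h3 := hdeg v.1
    omega
  have hc : Fintype.card {v // v ∈ P} = P.card := Fintype.card_coe P
  have hle : ∀ v : {v // v ∈ P}, dg (H.comap (fun x : {v // v ∈ P} => (x : U))) univ v ≤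
      Fintype.card {v // v ∈ P} := by
    intro v
    unfold dg
    exact card_le_univ _
  obtain ⟨x0, hx0⟩ := hPne
  refine ⟨{v // v ∈ P}, inferInstance, H.comap (fun x : {v // v ∈ P} => (x : U)), ?_, ?_, ?_, ?_, ?_⟩
  · exact Mn_of_embedding (fun x => x.1) Subtype.val_injective (fun u w h => h)
  · exact Fintype.card_pos_iff.2 ⟨⟨x0, hx0⟩⟩
  · have h1 := key ⟨x0, hx0⟩
    have h2 := hle ⟨x0, hx0⟩
    omega
  · intro v
    have h1 := key v
    omega
  · refine rob_of_dense ?_
    intro v
    have h1 := key v
    omega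

/-- [Q3b] the other case -/
theorem exists_rob {U : Type} [Fintype U] {H : SimpleGraph U} (hU : 0 < Fintype.card U)
    (hdeg : ∀ v, Fintype.card U ≤ 2 * dg H univ v) :
    ∃ (U' : Type) (_ : Fintype U') (H' : SimpleGraph U'), Mn H' H ∧ 0 < Fintype.card U' ∧
      9 * Fintype.card U ≤ 20 * Fintype.card U' ∧ (∀ v, Fintype.card U' ≤ 2 * dg H' univ v) ∧
      Rob H' := by
  classical
  by_cases h : ∀ D : Finset U, 20 * D.card < Fintype.card U → ∀ u w, u ∉ D → w ∉ D →
      RI H ((D : Set U)ᶜ) u w
  · exact ⟨U, inferInstance, H, Mn.refl H, hU, by omega, hdeg, rob_of_conn h⟩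
  · push Not at h
    obtain ⟨D, hD, u, w, hu, hw, hnot⟩ := h
    set A : Finset U := univ.filter (fun x => RI H ((D : Set U)ᶜ) u x) with hA
    set B : Finset U := univ.filter (fun x => RI H ((D : Set U)ᶜ) w x) with hB
    have hdisj : Disjoint A B := by
      rw [Finset.disjoint_left]
      intro x hx hx'
      rw [hA, mem_filter] at hx
      rw [hB, mem_filter] at hx'
      exact hnot (hx.2.trans hx'.2.symm)
    have hcard : A.card + B.card ≤ Fintype.card U := by
      rw [← card_union_of_disjoint hdisj]
      exact card_le_univ _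
    have hcl : ∀ z : U, z ∉ D → ∀ v ∈ univ.filter (fun x => RI H ((D : Set U)ᶜ) z x), ∀ w,
        H.Adj v w → w ∉ D → w ∈ univ.filter (fun x => RI H ((D : Set U)ᶜ) z x) := by
      intro z hz v hv w hvw hwD
      rw [mem_filter] at hv ⊢
      refine ⟨mem_univ _, hv.2.trans (RI.single hvw ?_ ?_)⟩
      · exact hv.2.mem (by simpa using hz)
      · simpa using hwD
    rcases le_total A.card B.card with hAB | hAB
    · refine exists_rob_aux hdeg D hD A ⟨u, ?_⟩ (hcl u hu) (by omega)
      rw [hA, mem_filter]
      exact ⟨mem_univ _, RI.refl _⟩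
    · refine exists_rob_aux hdeg D hD B ⟨w, ?_⟩ (hcl w hw) (by omega)
      rw [hB, mem_filter]
      exact ⟨mem_univ _, RI.refl _⟩

end Pool.Agent.Lib.MP_09e206_co
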