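import Pool.Agent.Lib.MP_09e206_co.K.Defs

namespace Pool.Agent.Lib.MP_09e206_co

open Pool.Agent.Lib.MP_4332cb_co Finset

open Classical in
/-- [Q4] random sets -/
theorem rand_step {U : Type*} [Fintype U] {H : SimpleGraph U} (hU : 0 < Fintype.card U)
    (hdeg : ∀ v, Fintype.card U ≤ 2 * dg H univ v) (b q : ℕ) (hb : 1 ≤ b) (R : Finset U)
    (hR : 3 * Fintype.card U ≤ 4 * R.card) (Nb : Fin q → Finset U)
    (hNb : ∀ j, ((Nb j).card : ℝ) ≤ 3 * (2 / 3 : ℝ) ^ b * Fintype.card U)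
    (hq : 3 * (q : ℝ) * (4 * (2 / 3 : ℝ) ^ b) ^ b < 1) :
    ∃ β : Fin b → U, (∀ i, β i ∈ R) ∧
      ((univ.filter (fun v => ∀ i, ¬ H.Adj (β i) v)).card : ℝ) ≤
        3 * (2 / 3 : ℝ) ^ b * Fintype.card U ∧ ∀ j, ∃ i, β i ∉ Nb j := by
  have hRpos : 0 < R.card := by omega
  have hRr : (0 : ℝ) < R.card := by exact_mod_cast hRpos
  have hnr : (0 : ℝ) < Fintype.card U := by exact_mod_cast hU
  have hR' : 3 * (Fintype.card U : ℝ) ≤ 4 * R.card := by exact_mod_cast hR
  set n : ℝ := (Fintype.card U : ℝ) with hn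
  set ρ : ℝ := (R.card : ℝ) with hρ
  let Ω : Finset (Fin b → U) := Fintype.piFinset (fun _ => R)
  have hΩ : (Ω.card : ℝ) = ρ ^ b := by
    simp only [Ω, Fintype.card_piFinset, Finset.prod_const, Finset.card_univ, Fintype.card_fin]
    push_cast
    rfl
  have hN : (0 : ℝ) < ρ ^ b := by positivity
  let bad : (Fin b → U) → Finset U := fun β => univ.filter (fun v => ∀ i, ¬ H.Adj (β i) v)
  -- the sum of the bad sets
  have hnon : ∀ v : U, ((R.filter (fun r => ¬ H.Adj r v)).card : ℝ) ≤ 2 / 3 * ρ := by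
    intro v
    have h1 : (R.filter (fun r => ¬ H.Adj r v)).card + dg H univ v ≤ Fintype.card U := by
      have h2 : Disjoint (R.filter (fun r => ¬ H.Adj r v)) (univ.filter (fun w => H.Adj v w)) := by
        rw [Finset.disjoint_left]
        intro w hw hw'
        exact (Finset.mem_filter.1 hw).2 (Finset.mem_filter.1 hw').2.symm
      have h3 := Finset.card_le_univ
        ((R.filter (fun r => ¬ H.Adj r v)) ∪ (univ.filter (fun w => H.Adj v w)))
      rw [Finset.card_union_of_disjoint h2] at h3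
      exact h3
    have h4 := hdeg v
    have h5 : 2 * (R.filter (fun r => ¬ H.Adj r v)).card ≤ Fintype.card U := by omega
    have h6 : 2 * ((R.filter (fun r => ¬ H.Adj r v)).card : ℝ) ≤ n := by
      rw [hn]
      exact_mod_cast h5
    linarith
  have hsum : ∑ β ∈ Ω, ((bad β).card : ℝ) ≤ n * (2 / 3 * ρ) ^ b := by
    have h1 : ∑ β ∈ Ω, ((bad β).card : ℝ) =
        ∑ v : U, ((Ω.filter (fun β => ∀ i, ¬ H.Adj (β i) v)).card : ℝ) := by
      have h2 : ∀ β, ((bad β).card : ℝ) = ∑ v : U, if (∀ i, ¬ H.Adj (β i) v) then (1 : ℝ) else 0 := by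
        intro β
        simp only [bad, Finset.card_filter]
        push_cast
        rfl
      simp only [h2]
      rw [Finset.sum_comm]
      refine Finset.sum_congr rfl fun v _ => ?_
      simp only [Finset.card_filter]
      push_cast
      rfl
    rw [h1]
    have h3 : ∀ v : U, ((Ω.filter (fun β => ∀ i, ¬ H.Adj (β i) v)).card : ℝ) ≤
        (2 / 3 * ρ) ^ b := by
      intro v
      have h4 : (Ω.filter (fun β => ∀ i, ¬ H.Adj (β i) v)) ⊆
          Fintype.piFinset (fun _ : Fin b => R.filter (fun r => ¬ H.Adj r v)) := by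
        intro β hβ
        obtain ⟨h5, h6⟩ := Finset.mem_filter.1 hβ
        refine Fintype.mem_piFinset.2 fun i => Finset.mem_filter.2 ⟨?_, h6 i⟩
        exact Fintype.mem_piFinset.1 h5 i
      have h7 := Finset.card_le_card h4
      rw [Fintype.card_piFinset] at h7
      simp only [Finset.prod_const, Finset.card_univ, Fintype.card_fin] at h7
      have h8 : ((Ω.filter (fun β => ∀ i, ¬ H.Adj (β i) v)).card : ℝ) ≤
          ((R.filter (fun r => ¬ H.Adj r v)).card : ℝ) ^ b := by exact_mod_cast h7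
      exact h8.trans (pow_le_pow_left₀ (by positivity) (hnon v) b)
    calc ∑ v : U, ((Ω.filter (fun β => ∀ i, ¬ H.Adj (β i) v)).card : ℝ)
        ≤ ∑ _v : U, (2 / 3 * ρ) ^ b := Finset.sum_le_sum fun v _ => h3 v
      _ = n * (2 / 3 * ρ) ^ b := by
        rw [Finset.sum_const, Finset.card_univ, nsmul_eq_mul]
  -- the two bad families
  let B1 : Finset (Fin b → U) := Ω.filter (fun β => 3 * (2 / 3 : ℝ) ^ b * n < ((bad β).card : ℝ))
  let B2 : Finset (Fin b → U) := Ω.filter (fun β => ∃ j, ∀ i, β i ∈ Nb j)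
  have hp : (0 : ℝ) < (2 / 3 : ℝ) ^ b := by positivity
  have hB1 : (B1.card : ℝ) ≤ ρ ^ b / 3 := by
    have h1 : (B1.card : ℝ) * (3 * (2 / 3 : ℝ) ^ b * n) ≤ ∑ β ∈ B1, ((bad β).card : ℝ) := by
      have := Finset.card_nsmul_le_sum B1 (fun β => ((bad β).card : ℝ))
        (3 * (2 / 3 : ℝ) ^ b * n) (fun β hβ => (Finset.mem_filter.1 hβ).2.le)
      rwa [nsmul_eq_mul] at this
    have h2 : ∑ β ∈ B1, ((bad β).card : ℝ) ≤ ∑ β ∈ Ω, ((bad β).card : ℝ) :=
      Finset.sum_le_sum_of_subset_of_nonneg (Finset.filter_subset _ _) (fun _ _ _ => by positivity)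
    have h3 : (B1.card : ℝ) * (3 * (2 / 3 : ℝ) ^ b * n) ≤ n * (2 / 3 * ρ) ^ b :=
      h1.trans (h2.trans hsum)
    rw [mul_pow] at h3
    have h4 : ((2 / 3 : ℝ) ^ b * n) * (3 * (B1.card : ℝ)) ≤ ((2 / 3 : ℝ) ^ b * n) * ρ ^ b := by
      linarith
    have h5 := le_of_mul_le_mul_left h4 (by positivity)
    linarith
  have hB2 : (B2.card : ℝ) < ρ ^ b / 3 := by
    have h1 : B2 ⊆ (univ : Finset (Fin q)).biUnion
        (fun j => Fintype.piFinset (fun _ : Fin b => Nb j)) := by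
      intro β hβ
      obtain ⟨-, j, hj⟩ := Finset.mem_filter.1 hβ
      exact Finset.mem_biUnion.2 ⟨j, Finset.mem_univ _, Fintype.mem_piFinset.2 hj⟩
    have h2 : (B2.card : ℝ) ≤ ∑ j : Fin q, ((Nb j).card : ℝ) ^ b := by
      have h3 := (Finset.card_le_card h1).trans Finset.card_biUnion_le
      simp only [Fintype.card_piFinset, Finset.prod_const, Finset.card_univ,
        Fintype.card_fin] at h3
      exact_mod_cast h3
    have h4 : ∀ j : Fin q, ((Nb j).card : ℝ) ^ b ≤ (4 * (2 / 3 : ℝ) ^ b * ρ) ^ b := by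
      intro j
      refine pow_le_pow_left₀ (by positivity) ((hNb j).trans ?_) b
      nlinarith
    have h5 : (B2.card : ℝ) ≤ q * ((4 * (2 / 3 : ℝ) ^ b) ^ b * ρ ^ b) := by
      calc (B2.card : ℝ) ≤ ∑ j : Fin q, ((Nb j).card : ℝ) ^ b := h2
        _ ≤ ∑ _j : Fin q, (4 * (2 / 3 : ℝ) ^ b * ρ) ^ b := Finset.sum_le_sum fun j _ => h4 j
        _ = q * ((4 * (2 / 3 : ℝ) ^ b) ^ b * ρ ^ b) := by
          rw [Finset.sum_const, Finset.card_univ, Fintype.card_fin, nsmul_eq_mul, mul_pow]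
    have h6 : 3 * (q : ℝ) * (4 * (2 / 3 : ℝ) ^ b) ^ b * ρ ^ b < 1 * ρ ^ b :=
      mul_lt_mul_of_pos_right hq hN
    linarith
  have hex : ∃ β ∈ Ω, β ∉ B1 ∪ B2 := by
    by_contra hcon
    push Not at hcon
    have h1 : Ω ⊆ B1 ∪ B2 := hcon
    have h2 := (Finset.card_le_card h1).trans (Finset.card_union_le _ _)
    have h3 : (Ω.card : ℝ) ≤ B1.card + B2.card := by exact_mod_cast h2
    rw [hΩ] at h3
    linarith
  obtain ⟨β, hβ, hβ2⟩ := hex
  rw [Finset.mem_union, not_or] at hβ2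
  refine ⟨β, Fintype.mem_piFinset.1 hβ, ?_, ?_⟩
  · by_contra hcon
    push Not at hcon
    exact hβ2.1 (Finset.mem_filter.2 ⟨hβ, hcon⟩)
  · intro j
    by_contra hcon
    push Not at hcon
    exact hβ2.2 (Finset.mem_filter.2 ⟨hβ, j, hcon⟩)

end Pool.Agent.Lib.MP_09e206_co
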