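import Pool.Agent.Lib.MP_09e206_co.K.Defs
import Pool.Agent.Lib.MP_09e206_co.K.Q4

namespace Pool.Agent.Lib.MP_09e206_co

open Pool.Agent.Lib.MP_4332cb_co Finset

/-- [Q5] -/
theorem seq_KM {U : Type*} [Fintype U] {H : SimpleGraph U} (hU : 0 < Fintype.card U)
    (hdeg : ∀ v, Fintype.card U ≤ 2 * dg H univ v) (hrob : Rob H) (b q : ℕ) (hb : 1 ≤ b)
    (hq : 3 * (q : ℝ) * (4 * (2 / 3 : ℝ) ^ b) ^ b < 1) (hs : 40 * (q * (100 * b)) ≤ Fintype.card U) :
    KM H q := by
  classical
  have main : ∀ p : ℕ, p ≤ q → ∃ (C : Fin p → Finset U) (Nb : Fin p → Finset U),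
      (∀ i, Cn H (C i : Set U)) ∧ (∀ i j, i ≠ j → Disjoint (C i) (C j)) ∧
      (∀ i j, i ≠ j → ∃ u ∈ C i, ∃ v ∈ C j, H.Adj u v) ∧ (∀ i, (C i).card ≤ 100 * b) ∧
      (∀ i, ((Nb i).card : ℝ) ≤ 3 * (2 / 3 : ℝ) ^ b * Fintype.card U) ∧
      (∀ i, ∀ v, v ∉ Nb i → ∃ u ∈ C i, H.Adj u v) := by
    intro p
    induction p with
    | zero =>
      intro _
      exact ⟨fun i => i.elim0, fun i => i.elim0, fun i => i.elim0, fun i => i.elim0,
        fun i => i.elim0, fun i => i.elim0, fun i => i.elim0, fun i => i.elim0⟩
    | succ p ih =>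
      intro hp
      obtain ⟨C, Nb, c1, c2, c3, c4, c5, c6⟩ := ih (by omega)
      set D : Finset U := univ.biUnion C with hD
      have hDc : D.card ≤ p * (100 * b) := by
        refine Finset.card_biUnion_le.trans ?_
        refine (Finset.sum_le_sum (fun i _ => c4 i)).trans ?_
        simp
      have hDq : 40 * D.card ≤ Fintype.card U := by
        have : p * (100 * b) ≤ q * (100 * b) := Nat.mul_le_mul_right _ (by omega)
        omega
      have hR : 3 * Fintype.card U ≤ 4 * (Dᶜ).card := by
        rw [Finset.card_compl]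
        have := Finset.card_le_univ D
        omega
      let Nb' : Fin q → Finset U := fun j => if h : j.1 < p then Nb ⟨j.1, h⟩ else ∅
      have hNb' : ∀ j, ((Nb' j).card : ℝ) ≤ 3 * (2 / 3 : ℝ) ^ b * Fintype.card U := by
        intro j
        by_cases h : j.1 < p
        · simp only [Nb', dif_pos h]
          exact c5 _
        · simp only [Nb', dif_neg h, Finset.card_empty, Nat.cast_zero]
          positivity
      obtain ⟨β, β1, β2, β3⟩ := rand_step hU hdeg b q hb Dᶜ hR Nb' hNb' hq
      have hβD : ∀ i, β i ∉ D := fun i => Finset.mem_compl.1 (β1 i)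
      let i0 : Fin b := ⟨0, hb⟩
      have hrob' := fun i => hrob D hDq (β i0) (β i) (hβD i0) (hβD i)
      choose C' e1 e2 e3 e4 e5 using hrob'
      set E : Finset U := univ.biUnion C' with hE
      have hsub : ∀ i, C' i ⊆ E := fun i => Finset.subset_biUnion_of_mem C' (Finset.mem_univ i)
      have hE1 : Cn H (E : Set U) := by
        refine Cn_of_center (x := β i0) (hsub i0 (e2 i0)) ?_
        intro y hy
        have hy' : y ∈ E := hy
        rw [hE, Finset.mem_biUnion] at hy'
        obtain ⟨i, _, hyi⟩ := hy'
        exact ((e5 i).2 _ (e2 i) y hyi).monoS (by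
          intro x hx
          exact hsub i hx)
      have hE2 : ∀ i, Disjoint E (C i) := by
        intro i
        rw [Finset.disjoint_left]
        intro x hx hx'
        rw [hE, Finset.mem_biUnion] at hx
        obtain ⟨j, _, hxj⟩ := hx
        refine Finset.disjoint_left.1 (e4 j) hxj ?_
        rw [hD, Finset.mem_biUnion]
        exact ⟨i, Finset.mem_univ _, hx'⟩
      have hE3 : ∀ i, ∃ u ∈ C i, ∃ v ∈ E, H.Adj u v := by
        intro i
        obtain ⟨j, hj⟩ := β3 ⟨i.1, by have := i.2; omega⟩
        have hj' : β j ∉ Nb i := by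
          have h1 : Nb' ⟨i.1, by have := i.2; omega⟩ = Nb i := by
            simp only [Nb', dif_pos i.2]
          rw [h1] at hj
          exact hj
        obtain ⟨u, hu, huv⟩ := c6 i (β j) hj'
        exact ⟨u, hu, β j, hsub j (e3 j), huv⟩
      have hE4 : E.card ≤ 100 * b := by
        refine Finset.card_biUnion_le.trans ?_
        refine (Finset.sum_le_sum (fun i _ => e1 i)).trans ?_
        simp [mul_comm]
      refine ⟨Fin.cons E C, Fin.cons (univ.filter (fun v => ∀ i, ¬ H.Adj (β i) v)) Nb,
        ?_, ?_, ?_, ?_, ?_, ?_⟩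
      · intro i
        refine Fin.cases ?_ (fun j => ?_) i
        · exact hE1
        · exact c1 j
      · intro i j
        refine Fin.cases ?_ (fun i' => ?_) i <;> refine Fin.cases ?_ (fun j' => ?_) j
        · intro h; exact absurd rfl h
        · intro _
          rw [Fin.cons_zero, Fin.cons_succ]
          exact hE2 j'
        · intro _
          rw [Fin.cons_zero, Fin.cons_succ]
          exact (hE2 i').symm
        · intro h
          rw [Fin.cons_succ, Fin.cons_succ]
          exact c2 i' j' (fun e => h (by rw [e]))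
      · intro i j
        refine Fin.cases ?_ (fun i' => ?_) i <;> refine Fin.cases ?_ (fun j' => ?_) j
        · intro h; exact absurd rfl h
        · intro _
          rw [Fin.cons_zero, Fin.cons_succ]
          obtain ⟨u, hu, v, hv, huv⟩ := hE3 j'
          exact ⟨v, hv, u, hu, huv.symm⟩
        · intro _
          rw [Fin.cons_zero, Fin.cons_succ]
          exact hE3 i'
        · intro h
          rw [Fin.cons_succ, Fin.cons_succ]
          exact c3 i' j' (fun e => h (by rw [e]))
      · intro i
        refine Fin.cases ?_ (fun j => ?_) i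
        · exact hE4
        · exact c4 j
      · intro i
        refine Fin.cases ?_ (fun j => ?_) i
        · exact β2
        · exact c5 j
      · intro i
        refine Fin.cases ?_ (fun j => ?_) i
        · intro v hv
          rw [Fin.cons_zero, Finset.mem_filter] at hv
          push Not at hv
          obtain ⟨i, hi⟩ := hv (Finset.mem_univ _)
          exact ⟨β i, hsub i (e3 i), hi⟩
        · exact c6 j
  obtain ⟨C, _, c1, c2, c3, _, _, _⟩ := main q le_rfl
  refine ⟨fun i => (C i : Set U), c1, ?_, ?_⟩
  · intro i j hij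
    exact Finset.disjoint_coe.2 (c2 i j hij)
  · intro i j hij
    exact c3 i j hij.ne

end Pool.Agent.Lib.MP_09e206_co
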