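import Pool.Agent.Lib.MP_09e206_co.K.Defs
import Pool.Agent.Lib.MP_09e206_co.K.Q1
import Pool.Agent.Lib.MP_09e206_co.K.Q2
import Pool.Agent.Lib.MP_09e206_co.K.Q3b
import Pool.Agent.Lib.MP_09e206_co.K.Q5

namespace Pool.Agent.Lib.MP_09e206_co

open Pool.Agent.Lib.MP_4332cb_co Finset

/-- [Q6] -/
theorem dense_KM {W : Type} [Fintype W] {G : SimpleGraph W} {k d b q : ℕ} (hd : 1 ≤ d)
    (h2d : 2 * d ≤ k) (hk : ¬ G.Colorable k) (hb : 1 ≤ b)
    (hq : 3 * (q : ℝ) * (4 * (2 / 3 : ℝ) ^ b) ^ b < 1) (hs : 800 * (q * (100 * b)) ≤ 9 * d) :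
    KM G q := by
  classical
  obtain ⟨S, hS, h1⟩ := exists_dense hk
  obtain ⟨U, iU, H, hM, hU, hU2, hdeg⟩ := mader hd hS (fun v hv => h2d.trans (h1 v hv))
  have hdeg' : ∀ v, Fintype.card U ≤ 2 * dg H univ v := fun v => by
    have := hdeg v
    omega
  obtain ⟨U', iU', H', hM', hU', h9, hdeg2, hrob⟩ := exists_rob hU hdeg'
  have hcard : d ≤ Fintype.card U := by
    obtain ⟨v⟩ := Fintype.card_pos_iff.1 hU
    refine (hdeg v).trans ?_
    unfold dg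
    exact (Finset.card_filter_le _ _).trans (by rw [Finset.card_univ])
  have h40 : 40 * (q * (100 * b)) ≤ Fintype.card U' := by omega
  exact ((seq_KM hU' hdeg2 hrob b q hb hq h40).of_Mn hM').of_Mn hM

end Pool.Agent.Lib.MP_09e206_co
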