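import Pool.Agent.Lib.MP_09e206_co.K.Defs
import Pool.Agent.Lib.MP_09e206_co.K.Q6

namespace Pool.Agent.Lib.MP_09e206_co

open Pool.Agent.Lib.MP_4332cb_co Finset

lemma KT_pow {k b t : ℕ} (hk : 2 ≤ k) (htk : (t : ℝ) ≤ k) (hb8 : 8 ≤ b)
    (hb : 64 * Real.log k ≤ (b : ℝ) ^ 2) :
    3 * (t : ℝ) * (4 * (2 / 3 : ℝ) ^ b) ^ b < 1 := by
  have hk0 : (2 : ℝ) ≤ k := by exact_mod_cast hk
  have h1 : (4 : ℝ) ≤ (6 / 5) ^ b := by
    calc (4 : ℝ) ≤ (6 / 5) ^ 8 := by norm_num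
      _ ≤ (6 / 5) ^ b := pow_le_pow_right₀ (by norm_num) hb8
  have h2 : 4 * (2 / 3 : ℝ) ^ b ≤ (4 / 5) ^ b := by
    calc 4 * (2 / 3 : ℝ) ^ b ≤ (6 / 5) ^ b * (2 / 3 : ℝ) ^ b := by gcongr
      _ = (4 / 5) ^ b := by rw [← mul_pow]; norm_num
  have h3 : (4 / 5 : ℝ) ≤ Real.exp (-(1 / 5)) := by
    have := Real.add_one_le_exp (-(1 / 5 : ℝ))
    linarith
  have h4 : (4 * (2 / 3 : ℝ) ^ b) ^ b ≤ Real.exp (-(3 * Real.log k)) := by
    calc (4 * (2 / 3 : ℝ) ^ b) ^ b ≤ ((4 / 5) ^ b) ^ b := by gcongr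
      _ = (4 / 5 : ℝ) ^ (b * b) := by rw [pow_mul]
      _ ≤ Real.exp (-(1 / 5)) ^ (b * b) := by gcongr
      _ = Real.exp (-(b : ℝ) ^ 2 / 5) := by
        rw [← Real.exp_nat_mul]
        congr 1
        push_cast
        ring
      _ ≤ Real.exp (-(3 * Real.log k)) := by
        apply Real.exp_le_exp.2
        have : 0 ≤ Real.log k := Real.log_nonneg (by linarith)
        linarith
  have h5 : Real.exp (-(3 * Real.log k)) = ((k : ℝ) ^ 3)⁻¹ := by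
    rw [Real.exp_neg, mul_comm, Real.exp_mul, Real.exp_log (by linarith)]
    norm_cast
  rw [h5] at h4
  have hkpos : (0 : ℝ) < k := by linarith
  calc 3 * (t : ℝ) * (4 * (2 / 3 : ℝ) ^ b) ^ b ≤ 3 * (k : ℝ) * ((k : ℝ) ^ 3)⁻¹ := by
        gcongr
    _ = 3 / (k : ℝ) ^ 2 := by field_simp
    _ < 1 := by
      rw [div_lt_one (by positivity)]
      nlinarith

/-- [Q7] **Kostochka-Thomason** for chromatic number -/
theorem KT : ∃ c : ℝ, 0 < c ∧ ∀ (k : ℕ), 2 ≤ k → ∀ (W : Type) [Fintype W] (G : SimpleGraph W),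
    ¬ G.Colorable (k - 1) → ∀ t : ℕ, (t : ℝ) ≤ c * k / Real.sqrt (Real.log k) → KM G t := by
  refine ⟨1 / 1000000, by norm_num, ?_⟩
  intro k hk W _ G hG t ht
  rcases Nat.eq_zero_or_pos t with rfl | ht0
  · exact ⟨fun i => i.elim0, fun i => i.elim0, fun i => i.elim0, fun i => i.elim0⟩
  have hk0 : (2 : ℝ) ≤ k := by exact_mod_cast hk
  have ht1 : (1 : ℝ) ≤ t := by exact_mod_cast ht0
  have hL2 : Real.log 2 ≤ Real.log k := Real.log_le_log (by norm_num) hk0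
  have hlog2 := Real.log_two_gt_d9
  have hLpos : 0 < Real.log k := by linarith
  set L := Real.log k with hL
  have hspos : 0 < Real.sqrt L := Real.sqrt_pos.2 hLpos
  have hsq : Real.sqrt L ^ 2 = L := Real.sq_sqrt hLpos.le
  -- `k` is large
  have h1 : (t : ℝ) * Real.sqrt L ≤ 1 / 1000000 * k := by
    rwa [le_div_iff₀ hspos] at ht
  have hs8 : (1 / 2 : ℝ) ≤ Real.sqrt L := by
    rw [show (1 / 2 : ℝ) = Real.sqrt ((1 / 2) ^ 2) by rw [Real.sqrt_sq (by norm_num)]]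
    apply Real.sqrt_le_sqrt
    linarith
  have hkbig : (1000 : ℝ) ≤ k := by
    nlinarith
  have hL1 : 1 ≤ L := by
    rw [hL, Real.le_log_iff_exp_le (by linarith)]
    have := Real.exp_one_lt_d9
    linarith
  have hs1 : 1 ≤ Real.sqrt L := by
    rw [show (1 : ℝ) = Real.sqrt 1 by simp]
    exact Real.sqrt_le_sqrt hL1
  set b : ℕ := ⌈8 * Real.sqrt L⌉₊ with hb
  have hb1 : 8 * Real.sqrt L ≤ b := Nat.le_ceil _
  have hb2 : (b : ℝ) < 8 * Real.sqrt L + 1 := Nat.ceil_lt_add_one (by positivity)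
  have hb8 : 8 ≤ b := by
    have : (8 : ℝ) ≤ b := by linarith
    exact_mod_cast this
  have hbsq : 64 * L ≤ (b : ℝ) ^ 2 := by
    have : (8 * Real.sqrt L) ^ 2 ≤ (b : ℝ) ^ 2 := by gcongr
    nlinarith
  have htk : (t : ℝ) ≤ k := by
    have : (t : ℝ) * 1 ≤ t * Real.sqrt L := by gcongr
    linarith
  have hkk : 1000 ≤ k := by exact_mod_cast hkbig
  refine dense_KM (d := (k - 1) / 2) (b := b) (by omega) (by omega) hG (by omega)
    (KT_pow hk htk hb8 hbsq) ?_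
  have hd : (k : ℝ) - 2 ≤ 2 * (((k - 1) / 2 : ℕ) : ℝ) := by
    have : k ≤ 2 * ((k - 1) / 2) + 2 := by omega
    have : (k : ℝ) ≤ 2 * (((k - 1) / 2 : ℕ) : ℝ) + 2 := by exact_mod_cast this
    linarith
  have hmain : (800 : ℝ) * (t * (100 * b)) ≤ 9 * (((k - 1) / 2 : ℕ) : ℝ) := by
    have h2 : (b : ℝ) ≤ 9 * Real.sqrt L := by linarith
    have h3 : (t : ℝ) * b ≤ t * (9 * Real.sqrt L) := by gcongr
    nlinarith
  exact_mod_cast hmain

end Pool.Agent.Lib.MP_09e206_co
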